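import Mathlib
import Pool.Agent.H28.SlowSG

namespace Pool.Agent.Results.MP_8cea72_an.NotFChaotic

open Filter Topology Set MeasureTheory Pool.Agent.H28.SlowSG

/-- The lower `f`-density. -/
noncomputable def ld (f : ℝ → ℝ) (A : Set ℝ) : ENNReal :=
  liminf (fun t : ℝ => volume (A ∩ Icc 0 (f t)) / ENNReal.ofReal t) atTop

/-- `f`-distributional chaos of a family of operators. -/
def DC {X : Type} [NormedAddCommGroup X] [NormedSpace ℝ X] (T : ℝ → X →L[ℝ] X) (f : ℝ → ℝ) :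
    Prop :=
  ∃ S : Set X, ¬ S.Countable ∧ ∃ σ > 0, ∀ ε > 0, ∀ x ∈ S, ∀ y ∈ S, x ≠ y →
    ld f {t | 0 ≤ t ∧ dist (T t x) (T t y) < σ} = 0 ∧
    ld f {t | 0 ≤ t ∧ ε ≤ dist (T t x) (T t y)} = 0

/-- The class `F`. -/
def InF (f : ℝ → ℝ) : Prop :=
  StrictMonoOn f (Ici 0) ∧ (∀ t, 0 ≤ t → 1 ≤ f t) ∧ ∃ c > 0, ∀ᶠ t in atTop, c ≤ f t / t

theorem zero (A : Set ℝ) (R : ℕ → ℕ) (hR : ∀ a, 1 ≤ R a)
    (h : ∀ᶠ a : ℕ in atTop, ∀ t ∈ A, t ≤ (a + 1) * R a + 1 → t ≤ R a) :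
    ld (fun t => 1 + t) A = 0 := by
  refine le_antisymm (ENNReal.le_of_forall_pos_le_add fun ε hε _ => ?_) zero_le
  rw [zero_add]
  refine liminf_le_of_frequently_le' (frequently_atTop.2 fun b => ?_)
  have hε' : (0 : ℝ) < ε := hε
  obtain ⟨a, h1, h2, h3⟩ := (h.and ((tendsto_natCast_atTop_atTop.eventually_ge_atTop b).and
    (tendsto_natCast_atTop_atTop.eventually_ge_atTop (1 / (ε : ℝ))))).exists
  have hr : (1 : ℝ) ≤ R a := by exact_mod_cast hR a
  have ha : (0 : ℝ) ≤ a := by positivity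
  refine ⟨(a + 1) * R a, by nlinarith, ENNReal.div_le_of_le_mul ?_⟩
  refine (measure_mono (t := Icc (0 : ℝ) (R a)) fun t ht =>
    ⟨ht.2.1, h1 t ht.1 (by linarith [ht.2.2])⟩).trans ?_
  rw [Real.volume_Icc, ← ENNReal.ofReal_coe_nnreal, ← ENNReal.ofReal_mul hε'.le]
  rw [div_le_iff₀ hε'] at h3
  exact ENNReal.ofReal_le_ofReal (by nlinarith)

theorem big (A : Set ℝ) (h : ∀ a, Ico (P a : ℝ) (P a + 1) ⊆ A) (n : ℕ) :
    (n : ENNReal) ≤ volume (A ∩ Ico 0 (P n : ℝ)) := by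
  induction n with
  | zero => simp
  | succ n ih =>
    have h1 : (P n : ℝ) + 1 ≤ P (n + 1) := by exact_mod_cast P_mono (Nat.lt_succ_self n)
    have h2 : (0 : ℝ) ≤ P n := by positivity
    have := measure_union (μ := volume) (s₁ := A ∩ Ico 0 (P n : ℝ)) (s₂ := Ico (P n : ℝ) (P n + 1))
      (Set.disjoint_left.2 fun t h h' => absurd h.2.2 (not_lt.2 h'.1)) measurableSet_Ico
    rw [Real.volume_Ico, add_sub_cancel_left, ENNReal.ofReal_one] at this
    push_cast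
    refine (add_le_add_left ih 1).trans (this ▸ measure_mono (union_subset ?_ ?_))
    · exact inter_subset_inter_right _ (Ico_subset_Ico_right (by linarith))
    · exact subset_inter (h n) (Ico_subset_Ico h2 h1)

theorem result : ∃ (X : Type) (_ : NormedAddCommGroup X) (_ : NormedSpace ℝ X)
    (_ : CompleteSpace X) (T : ℝ → X →L[ℝ] X) (f : ℝ → ℝ),
    T 0 = 1 ∧ (∀ s t, 0 ≤ s → 0 ≤ t → T (s + t) = T s * T t) ∧
    (∀ x, ContinuousOn (fun t => T t x) (Ici 0)) ∧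
    (∃ X0 : Submodule ℝ X, Dense (X0 : Set X) ∧ ∀ x ∈ X0, Tendsto (fun t => T t x) atTop (𝓝 0)) ∧
    DC T (fun t => 1 + t) ∧ InF f ∧ ¬ DC T f := by
  obtain ⟨X, i1, i2, i3, i4, T, z, h0, h1, h2, h3, h4, h5, h6⟩ := core
  have hP : ∀ a, 1 ≤ P a := fun a => P_mono.monotone (Nat.zero_le a)
  have hQ : ∀ a, 1 ≤ Q a := fun a => Nat.mul_pos (by unfold ex; omega) (by omega)
  refine ⟨X, i1, i2, i3, T, fun t => P ⌈t⌉₊ + t, h0, h1, fun x => (h2 x).continuousOn, h3,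
    ⟨range fun c : ℝ => c • z, fun hc => ?_, 1, one_pos, ?_⟩, ⟨fun s _ t _ hst => ?_, fun t ht => ?_,
    1, one_pos, ?_⟩, ?_⟩
  · have hz : z ≠ 0 := by
      rintro rfl
      have := h6 0 (Q 0 + 1) (by linarith) (by simp)
      norm_num at this
    have := hc.preimage_of_injOn (f := fun c : ℝ => c • z) (smul_left_injective ℝ hz).injOn
    rw [preimage_range] at this
    exact not_countable_univ this
  · rintro ε hε _ ⟨c, rfl⟩ _ ⟨d, rfl⟩ hcd
    have hne : 0 < |c - d| := abs_pos.2 (sub_ne_zero.2 fun h => hcd (by rw [h]))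
    have e : ∀ t, dist (T t (c • z)) (T t (d • z)) = |c - d| * ‖T t z‖ := fun t => by
      rw [dist_eq_norm, ← map_sub, ← sub_smul, map_smul, norm_smul, Real.norm_eq_abs]
    simp only [e]
    refine ⟨zero _ Q hQ ?_, zero _ P hP ?_⟩
    · filter_upwards [(tendsto_pow_atTop_atTop_of_one_lt (one_lt_two (α := ℝ))).eventually_ge_atTop
        (1 / |c - d|)] with a ha t ht h
      rw [div_le_iff₀ hne] at ha
      exact le_of_not_gt fun h' => by nlinarith [h6 a t h' h, ht.2]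
    · filter_upwards [(tendsto_pow_atTop_nhds_zero_of_lt_one (by norm_num : (0 : ℝ) ≤ 1 / 2)
        (by norm_num)).eventually_lt_const (div_pos hε hne)] with a ha t ht h
      rw [lt_div_iff₀ hne] at ha
      exact le_of_not_gt fun h' => by nlinarith [h5 a t h'.le h, ht.2]
  · have : (P ⌈s⌉₊ : ℝ) ≤ P ⌈t⌉₊ := by exact_mod_cast P_mono.monotone (Nat.ceil_mono hst.le)
    simp only
    linarith
  · have : (1 : ℝ) ≤ P ⌈t⌉₊ := by exact_mod_cast hP _
    linarith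
  · filter_upwards [eventually_gt_atTop 0] with t ht
    rw [le_div_iff₀ ht]
    linarith [(Nat.cast_nonneg (P ⌈t⌉₊) : (0 : ℝ) ≤ _)]
  · rintro ⟨S, hS, σ, hσ, h⟩
    obtain ⟨x, hx, y, hy, hxy, hd⟩ := close S hS _ (half_pos hσ)
    have h7 := (h 1 one_pos x hx y hy hxy).1
    refine absurd (le_of_le_of_eq (le_liminf_of_le (a := 1) (by isBoundedDefault) ?_) h7) (by simp)
    filter_upwards [eventually_gt_atTop 0] with t ht
    rw [ENNReal.le_div_iff_mul_le (Or.inl (by simpa using ht)) (Or.inl (by simp)), one_mul]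
    refine le_trans ?_ ((big {t | 0 ≤ t ∧ dist (T t x) (T t y) < σ}
      (fun a u hu => ⟨le_trans (by positivity) hu.1, ?_⟩) ⌈t⌉₊).trans
      (measure_mono (inter_subset_inter_right _ fun u hu => ⟨hu.1, by linarith [hu.2]⟩)))
    · rw [← ENNReal.ofReal_natCast]; exact ENNReal.ofReal_le_ofReal (Nat.le_ceil t)
    · rw [dist_eq_norm, ← map_sub]
      linarith [h4 a u hu.1 hu.2.le (x - y)]

end Pool.Agent.Results.MP_8cea72_an.NotFChaotic
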